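import Pool.Agent.Helper16.BT.KER4

/-! Block KER3: the self interaction of a source vanishes. -/

namespace Pool.Helper4.BT
open MeasureTheory Metric Set Laplacian InnerProductSpace

theorem KER3_kernel_bound (x y v : E) :
    |-4 * cG * inner ℝ (x - y) v / ‖x - y‖ ^ 6| ≤ 4 * |cG| * ‖v‖ * (‖x - y‖ ^ 5)⁻¹ := by
  rw [abs_div, abs_mul, abs_mul, abs_of_nonneg (by positivity : 0 ≤ ‖x - y‖ ^ 6)]
  have h3 : |inner ℝ (x - y) v| ≤ ‖x - y‖ * ‖v‖ := abs_real_inner_le_norm _ _
  have h4 : |(-4 : ℝ)| = 4 := by norm_num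
  rw [h4]
  rcases eq_or_ne (‖x - y‖) 0 with h0 | h0
  · simp [h0]
  · have hpos : 0 < ‖x - y‖ := lt_of_le_of_ne (norm_nonneg _) (Ne.symm h0)
    rw [← div_eq_mul_inv, div_le_div_iff₀ (by positivity) (by positivity)]
    calc 4 * |cG| * |inner ℝ (x - y) v| * ‖x - y‖ ^ 5
        ≤ 4 * |cG| * (‖x - y‖ * ‖v‖) * ‖x - y‖ ^ 5 := by gcongr
      _ = 4 * |cG| * ‖v‖ * ‖x - y‖ ^ 6 := by ring

theorem KER3_antisymm (F : E → E → ℝ)
    (hF : Integrable (Function.uncurry F) ((volume : Measure E).prod volume))
    (ha : ∀ x y, F x y = -F y x) : ∫ x, ∫ y, F x y = 0 := by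
  have h1 := integral_integral_swap hF
  have h2 : ∫ y, ∫ x, F x y = -∫ y, ∫ x, F y x := by
    rw [← integral_neg]
    refine integral_congr_ae (Filter.Eventually.of_forall fun y => ?_)
    show ∫ x, F x y = -∫ x, F y x
    rw [← integral_neg]
    exact integral_congr_ae (Filter.Eventually.of_forall fun x => ha x y)
  rw [h2] at h1
  linarith

theorem KER3_integrable (f : E → ℝ) (hf : Continuous f) (hc : HasCompactSupport f) (c : E)
    (k : E → E → ℝ) (hk : Measurable (Function.uncurry k)) (C : ℝ → ℝ) (hC : ∀ R, 0 ≤ R → 0 ≤ C R)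
    (hb : ∀ R, 0 ≤ R → ∀ x y, x ∈ closedBall c R → y ∈ closedBall c R →
      |k x y| ≤ C R * (‖x - y‖ ^ 5)⁻¹) :
    Integrable (Function.uncurry fun x y => f x * (k x y * f y))
      ((volume : Measure E).prod volume) := by
  obtain ⟨B, hB⟩ := hf.bounded_above_of_compact_support hc
  have hB0 : 0 ≤ B := (norm_nonneg _).trans (hB 0)
  obtain ⟨R0, hR0⟩ := hc.isCompact.isBounded.subset_closedBall c
  set R := max R0 0 with hRdef
  have hR0' : 0 ≤ R := le_max_right _ _
  have hR : tsupport f ⊆ closedBall c R := hR0.trans (closedBall_subset_closedBall (le_max_left _ _))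
  have h1 : Integrable ((closedBall c R).indicator (fun _ : E => (1 : ℝ))) := by
    rw [integrable_indicator_iff measurableSet_closedBall]
    exact integrableOn_const (by exact (measure_closedBall_lt_top).ne)
  have h2 : Integrable ((closedBall (0 : E) (2 * R)).indicator (fun w : E => (‖w‖ ^ 5)⁻¹)) := by
    rw [integrable_indicator_iff measurableSet_closedBall]
    have := KER4_integrableOn (m := 5) le_rfl 0 (2 * R)
    simpa using this
  have h3 := h1.convolution_integrand (ContinuousLinearMap.mul ℝ ℝ) h2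
  have h4 := h3.const_mul (B * (C R * B))
  refine h4.mono' ?_ (Filter.Eventually.of_forall ?_)
  · refine Measurable.aestronglyMeasurable ?_
    have hf1 : Measurable (fun p : E × E => f p.1) := hf.measurable.comp measurable_fst
    have hf2 : Measurable (fun p : E × E => f p.2) := hf.measurable.comp measurable_snd
    exact hf1.mul (hk.mul hf2)
  · rintro ⟨x, y⟩
    simp only [Function.uncurry, ContinuousLinearMap.mul_apply']
    by_cases hx : x ∈ closedBall c R
    · by_cases hy : y ∈ closedBall c R
      · have hxy : x - y ∈ closedBall (0 : E) (2 * R) := by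
          rw [mem_closedBall_zero_iff]
          rw [mem_closedBall, dist_eq_norm] at hx hy
          calc ‖x - y‖ = ‖(x - c) - (y - c)‖ := by congr 1; abel
            _ ≤ ‖x - c‖ + ‖y - c‖ := norm_sub_le _ _
            _ ≤ 2 * R := by linarith
        rw [Set.indicator_of_mem hy, Set.indicator_of_mem hxy, one_mul, Real.norm_eq_abs,
          abs_mul, abs_mul]
        have hb1 := hb R hR0' x y hx hy
        have hx1 : |f x| ≤ B := hB x
        have hy1 : |f y| ≤ B := hB y
        have hC1 := hC R hR0'
        have hn : 0 ≤ (‖x - y‖ ^ 5)⁻¹ := by positivity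
        calc |f x| * (|k x y| * |f y|) ≤ B * ((C R * (‖x - y‖ ^ 5)⁻¹) * B) := by
              gcongr
          _ = B * (C R * B) * (‖x - y‖ ^ 5)⁻¹ := by ring
      · have : f y = 0 := by
          by_contra h
          exact hy (hR (subset_tsupport f h))
        rw [this, Set.indicator_of_notMem hy]
        simp
    · have : f x = 0 := by
        by_contra h
        exact hx (hR (subset_tsupport f h))
      rw [this]
      simp only [zero_mul, norm_zero]
      have hC1 := hC R hR0'
      refine mul_nonneg (by positivity) (mul_nonneg ?_ ?_)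
      · exact Set.indicator_nonneg (fun _ _ => zero_le_one) _
      · exact Set.indicator_nonneg (fun _ _ => by positivity) _

theorem KER3_int4 (f : E → ℝ) (hf : Continuous f) (hc : HasCompactSupport f) (x : E) :
    Integrable (fun y => Gam (x - y) * f y) := by
  obtain ⟨B, hB⟩ := hf.bounded_above_of_compact_support hc
  obtain ⟨R, hR⟩ := hc.isCompact.isBounded.subset_closedBall x
  have h1 : Integrable ((closedBall x R).indicator (fun y => B * (‖x - y‖ ^ 4)⁻¹)) := by
    rw [integrable_indicator_iff measurableSet_closedBall]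
    exact (KER4_integrableOn (m := 4) (by norm_num) x R).const_mul B
  refine (h1.const_mul |cG|).mono' ?_ (Filter.Eventually.of_forall fun y => ?_)
  · refine Measurable.aestronglyMeasurable ?_
    unfold Gam
    have := hf.measurable
    fun_prop
  · by_cases hy : y ∈ closedBall x R
    · rw [Set.indicator_of_mem hy, Real.norm_eq_abs, abs_mul]
      unfold Gam
      rw [abs_mul, abs_of_nonneg (by positivity : 0 ≤ (‖x - y‖ ^ 4)⁻¹)]
      have : |f y| ≤ B := hB y
      calc |cG| * (‖x - y‖ ^ 4)⁻¹ * |f y| ≤ |cG| * (‖x - y‖ ^ 4)⁻¹ * B := by gcongr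
        _ = _ := by ring
    · have : f y = 0 := by
        by_contra h
        exact hy (hR (subset_tsupport f h))
      rw [this, Set.indicator_of_notMem hy]
      simp

theorem KER3_int6 (f : E → ℝ) (hf : Continuous f) (hc : HasCompactSupport f) (x v : E) :
    Integrable (fun y => (-4 * cG * inner ℝ (x - y) v / ‖x - y‖ ^ 6) * f y) := by
  obtain ⟨B, hB⟩ := hf.bounded_above_of_compact_support hc
  obtain ⟨R, hR⟩ := hc.isCompact.isBounded.subset_closedBall x
  have h1 : Integrable ((closedBall x R).indicator (fun y => B * (‖x - y‖ ^ 5)⁻¹)) := by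
    rw [integrable_indicator_iff measurableSet_closedBall]
    exact (KER4_integrableOn (m := 5) (by norm_num) x R).const_mul B
  refine (h1.const_mul (4 * |cG| * ‖v‖)).mono' ?_ (Filter.Eventually.of_forall fun y => ?_)
  · refine Measurable.aestronglyMeasurable ?_
    have := hf.measurable
    fun_prop
  · by_cases hy : y ∈ closedBall x R
    · rw [Set.indicator_of_mem hy, Real.norm_eq_abs, abs_mul]
      have hy1 : |f y| ≤ B := hB y
      have h6 := KER3_kernel_bound x y v
      calc |-4 * cG * inner ℝ (x - y) v / ‖x - y‖ ^ 6| * |f y|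
          ≤ (4 * |cG| * ‖v‖ * (‖x - y‖ ^ 5)⁻¹) * B := by gcongr
        _ = _ := by ring
    · have : f y = 0 := by
        by_contra h
        exact hy (hR (subset_tsupport f h))
      rw [this, Set.indicator_of_notMem hy]
      simp

theorem self_zero (f : E → ℝ) (hf : ContDiff ℝ 1 f) (hc : HasCompactSupport f) (c : E) :
    ∫ x, f x * (fderiv ℝ (N f) x (x - c) + 2 * N f x) = 0 := by
  set k : E → E → ℝ := fun x y =>
    -4 * cG * inner ℝ (x - y) (x - c) / ‖x - y‖ ^ 6 + 2 * Gam (x - y) with hk
  have hkm : Measurable (Function.uncurry k) := by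
    simp only [hk, Function.uncurry_def]
    unfold Gam
    fun_prop
  have hInt := KER3_integrable f hf.continuous hc c k hkm (fun R => 8 * |cG| * R)
    (fun R hR => by positivity) (by
      intro R hR x y hx hy
      rw [mem_closedBall, dist_eq_norm] at hx hy
      have hxy : ‖x - y‖ ≤ 2 * R := by
        calc ‖x - y‖ = ‖(x - c) - (y - c)‖ := by congr 1; abel
          _ ≤ ‖x - c‖ + ‖y - c‖ := norm_sub_le _ _
          _ ≤ 2 * R := by linarith
      have h1 := KER3_kernel_bound x y (x - c)
      have h2 : |2 * Gam (x - y)| ≤ 4 * |cG| * R * (‖x - y‖ ^ 5)⁻¹ := by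
        unfold Gam
        rw [abs_mul, abs_mul, abs_of_nonneg (by positivity : 0 ≤ (‖x - y‖ ^ 4)⁻¹),
          abs_of_pos (by norm_num : (0 : ℝ) < 2)]
        rcases eq_or_ne (‖x - y‖) 0 with h0 | h0
        · simp [h0]
        · have hpos : 0 < ‖x - y‖ := lt_of_le_of_ne (norm_nonneg _) (Ne.symm h0)
          have : (‖x - y‖ ^ 4)⁻¹ = ‖x - y‖ * (‖x - y‖ ^ 5)⁻¹ := by
            field_simp
          rw [this]
          calc 2 * (|cG| * (‖x - y‖ * (‖x - y‖ ^ 5)⁻¹))
              ≤ 2 * (|cG| * ((2 * R) * (‖x - y‖ ^ 5)⁻¹)) := by gcongr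
            _ = _ := by ring
      calc |k x y| ≤ |-4 * cG * inner ℝ (x - y) (x - c) / ‖x - y‖ ^ 6| + |2 * Gam (x - y)| :=
            abs_add_le _ _
        _ ≤ 4 * |cG| * ‖x - c‖ * (‖x - y‖ ^ 5)⁻¹ + 4 * |cG| * R * (‖x - y‖ ^ 5)⁻¹ :=
            add_le_add h1 h2
        _ ≤ 4 * |cG| * R * (‖x - y‖ ^ 5)⁻¹ + 4 * |cG| * R * (‖x - y‖ ^ 5)⁻¹ := by gcongr
        _ = 8 * |cG| * R * (‖x - y‖ ^ 5)⁻¹ := by ring)
  have h := KER3_antisymm (fun x y => f x * (k x y * f y)) hInt (by
    intro x y
    have : k x y = -k y x := by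
      simp only [hk]
      have hn : ‖y - x‖ = ‖x - y‖ := norm_sub_rev _ _
      have hi : inner ℝ (y - x) (y - c) = -inner ℝ (x - y) (y - c) := by
        rw [← inner_neg_left, neg_sub]
      have hs : inner ℝ (x - y) (x - c) - inner ℝ (x - y) (y - c) = ‖x - y‖ ^ 2 := by
        rw [← inner_sub_right, sub_sub_sub_cancel_right, real_inner_self_eq_norm_sq]
      unfold Gam
      rw [hn, hi]
      rcases eq_or_ne (‖x - y‖) 0 with h0 | h0
      · simp [h0]
      · have h5 : inner ℝ (x - y) (x - c) = inner ℝ (x - y) (y - c) + ‖x - y‖ ^ 2 := by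
          linarith
        rw [h5]
        field_simp
        ring
    rw [this]
    ring)
  rw [← h]
  refine integral_congr_ae (Filter.Eventually.of_forall fun x => ?_)
  show f x * (fderiv ℝ (N f) x (x - c) + 2 * N f x) = ∫ y, f x * (k x y * f y)
  rw [integral_const_mul]
  congr 1
  rw [fderiv_N f hf hc x (x - c)]
  unfold N
  rw [← integral_const_mul, ← integral_add (KER3_int6 f hf.continuous hc x (x - c))
    ((KER3_int4 f hf.continuous hc x).const_mul 2)]
  refine integral_congr_ae (Filter.Eventually.of_forall fun y => ?_)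
  simp only [hk]
  ring

theorem self_zero' (f : E → ℝ) (hf : ContDiff ℝ 1 f) (hc : HasCompactSupport f) (v : E) :
    ∫ x, f x * fderiv ℝ (N f) x v = 0 := by
  set k : E → E → ℝ := fun x y => -4 * cG * inner ℝ (x - y) v / ‖x - y‖ ^ 6 with hk
  have hkm : Measurable (Function.uncurry k) := by
    simp only [hk, Function.uncurry_def]
    fun_prop
  have hInt := KER3_integrable f hf.continuous hc 0 k hkm (fun _ => 4 * |cG| * ‖v‖)
    (fun R hR => by positivity) (by
      intro R hR x y hx hy
      exact KER3_kernel_bound x y v)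
  have h := KER3_antisymm (fun x y => f x * (k x y * f y)) hInt (by
    intro x y
    have : k x y = -k y x := by
      simp only [hk]
      have hn : ‖y - x‖ = ‖x - y‖ := norm_sub_rev _ _
      have hi : inner ℝ (y - x) v = -inner ℝ (x - y) v := by
        rw [← inner_neg_left, neg_sub]
      rw [hn, hi]
      ring
    rw [this]
    ring)
  rw [← h]
  refine integral_congr_ae (Filter.Eventually.of_forall fun x => ?_)
  show f x * fderiv ℝ (N f) x v = ∫ y, f x * (k x y * f y)
  rw [integral_const_mul, fderiv_N f hf hc x v]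

end Pool.Helper4.BT
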