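import Pool.Agent.Helper17.BT.Kernel

/-! Block KER4: bounds for the Newtonian potential and its derivative. -/

namespace Pool.Helper4.BT
open MeasureTheory Metric Set Laplacian InnerProductSpace

/-- Local integrability of the Riesz kernels in dimension six. -/
theorem KER4_integrableOn {m : ℕ} (hm : m ≤ 5) (x : E) (R : ℝ) :
    IntegrableOn (fun y : E => (‖x - y‖ ^ m)⁻¹) (closedBall x R) := by
  have h1 : Integrable (fun y : E => (Set.Iic R).indicator (fun t : ℝ => (t ^ m)⁻¹) ‖y‖) := by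
    rw [MeasureTheory.integrable_fun_norm_addHaar (μ := (volume : Measure E))
      (f := (Set.Iic R).indicator (fun t : ℝ => (t ^ m)⁻¹))]
    have hfin : Module.finrank ℝ E = 6 := by simp [E]
    rw [hfin]
    have h2 : IntegrableOn (fun t : ℝ => t ^ (5 - m)) (Set.Ioc 0 R) := by
      exact ((continuous_pow (5 - m)).integrableOn_Icc (a := 0) (b := R)).mono_set
        Set.Ioc_subset_Icc_self
    have h3 : IntegrableOn (fun t : ℝ => (Set.Iic R).indicator (fun t : ℝ => t ^ (5 - m)) t)
        (Set.Ioi 0) := by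
      rw [← integrable_indicator_iff measurableSet_Ioi]
      rw [← integrable_indicator_iff measurableSet_Ioc] at h2
      refine h2.congr (Filter.Eventually.of_forall fun t => ?_)
      by_cases h4 : 0 < t <;> by_cases h5 : t ≤ R <;> simp [Set.indicator, h4, h5]
    refine h3.congr_fun ?_ measurableSet_Ioi
    intro t ht
    have ht0 : (0 : ℝ) < t := ht
    by_cases h5 : t ≤ R
    · simp only [Set.indicator, Set.mem_Iic, h5, if_true, smul_eq_mul]
      have : t ^ (6 - 1) = t ^ (5 - m) * t ^ m := by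
        rw [← pow_add]; congr 1; omega
      rw [this, mul_assoc, mul_inv_cancel₀ (pow_ne_zero _ ht0.ne'), mul_one]
    · simp [Set.indicator, h5]
  have h2 := h1.comp_sub_left x
  have h3 : IntegrableOn (fun y : E => (Set.Iic R).indicator (fun t : ℝ => (t ^ m)⁻¹) ‖x - y‖)
      (closedBall x R) := h2.integrableOn
  refine h3.congr_fun ?_ measurableSet_closedBall
  intro y hy
  have hy' : ‖x - y‖ ≤ R := by
    rw [mem_closedBall, dist_comm, dist_eq_norm] at hy
    exact hy
  simp [Set.indicator, hy']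

theorem KER4_ne_top {m : ℕ} (hm : m ≤ 5) (f : E → ℝ) (hf : Continuous f)
    (hc : HasCompactSupport f) (x : E) : J m (fun y => |f y|) x ≠ ⊤ := by
  obtain ⟨B, hB⟩ := hf.bounded_above_of_compact_support hc
  obtain ⟨R, hR⟩ := hc.isCompact.isBounded.subset_closedBall x
  have h1 := (KER4_integrableOn hm x R).const_mul B
  have h2 : ∫⁻ y in closedBall x R, ENNReal.ofReal (B * (‖x - y‖ ^ m)⁻¹) ≠ ⊤ := by
    have h3 := h1.2
    refine ne_of_lt (lt_of_le_of_lt (lintegral_mono fun y => ?_) h3)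
    exact Real.ofReal_le_enorm _
  refine ne_top_of_le_ne_top h2 ?_
  unfold J
  rw [← lintegral_indicator measurableSet_closedBall]
  refine lintegral_mono fun y => ?_
  by_cases hy : y ∈ closedBall x R
  · rw [Set.indicator_of_mem hy]
    refine ENNReal.ofReal_le_ofReal ?_
    rw [div_eq_mul_inv]
    exact mul_le_mul_of_nonneg_right (hB y) (by positivity)
  · rw [Set.indicator_of_notMem hy]
    have : f y = 0 := by
      by_contra h
      exact hy (hR (subset_tsupport f h))
    simp [this]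

theorem N_bounds (f : E → ℝ) (hf : ContDiff ℝ 1 f) (hc : HasCompactSupport f) (x : E) :
    |N f x| ≤ cG * (J 4 (fun y => |f y|) x).toReal ∧
    ‖fderiv ℝ (N f) x‖ ≤ 4 * cG * (J 5 (fun y => |f y|) x).toReal ∧
    J 4 (fun y => |f y|) x ≠ ⊤ ∧ J 5 (fun y => |f y|) x ≠ ⊤ := by
  have h4 := KER4_ne_top (m := 4) (by norm_num) f hf.continuous hc x
  have h5 := KER4_ne_top (m := 5) (by norm_num) f hf.continuous hc x
  have hcG := cG_pos
  refine ⟨?_, ?_, h4, h5⟩
  · have h1 := norm_integral_le_lintegral_norm (μ := (volume : Measure E))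
      (fun y => Gam (x - y) * f y)
    rw [Real.norm_eq_abs] at h1
    unfold N
    refine h1.trans ?_
    have h2 : ∫⁻ y, ENNReal.ofReal ‖Gam (x - y) * f y‖ =
        ENNReal.ofReal cG * J 4 (fun y => |f y|) x := by
      unfold J
      rw [← lintegral_const_mul' _ _ ENNReal.ofReal_ne_top]
      refine lintegral_congr fun y => ?_
      rw [← ENNReal.ofReal_mul hcG.le]
      congr 1
      rw [Real.norm_eq_abs, abs_mul]
      unfold Gam
      rw [abs_mul, abs_of_pos hcG, abs_of_nonneg (by positivity : 0 ≤ (‖x - y‖ ^ 4)⁻¹)]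
      ring
    rw [h2, ENNReal.toReal_mul, ENNReal.toReal_ofReal hcG.le]
  · refine ContinuousLinearMap.opNorm_le_bound _ (by positivity) fun v => ?_
    rw [fderiv_N f hf hc x v]
    have h1 := norm_integral_le_lintegral_norm (μ := (volume : Measure E))
      (fun y => (-4 * cG * inner ℝ (x - y) v / ‖x - y‖ ^ 6) * f y)
    refine h1.trans ?_
    have h2 : ∫⁻ y, ENNReal.ofReal ‖(-4 * cG * inner ℝ (x - y) v / ‖x - y‖ ^ 6) * f y‖ ≤
        ENNReal.ofReal (4 * cG * ‖v‖) * J 5 (fun y => |f y|) x := by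
      unfold J
      rw [← lintegral_const_mul' _ _ ENNReal.ofReal_ne_top]
      refine lintegral_mono fun y => ?_
      rw [← ENNReal.ofReal_mul (by positivity)]
      refine ENNReal.ofReal_le_ofReal ?_
      rw [Real.norm_eq_abs, abs_mul, abs_div, abs_mul, abs_mul]
      rw [abs_of_nonneg (by positivity : 0 ≤ ‖x - y‖ ^ 6), abs_of_pos hcG]
      have h3 : |inner ℝ (x - y) v| ≤ ‖x - y‖ * ‖v‖ := abs_real_inner_le_norm _ _
      rcases eq_or_ne (‖x - y‖) 0 with h0 | h0
      · simp [h0]
      · have hpos : 0 < ‖x - y‖ := lt_of_le_of_ne (norm_nonneg _) (Ne.symm h0)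
        have h6 : |(-4 : ℝ)| * cG * |inner ℝ (x - y) v| / ‖x - y‖ ^ 6 ≤
            4 * cG * ‖v‖ / ‖x - y‖ ^ 5 := by
          rw [div_le_div_iff₀ (by positivity) (by positivity)]
          have : |(-4 : ℝ)| = 4 := by norm_num
          rw [this]
          calc 4 * cG * |inner ℝ (x - y) v| * ‖x - y‖ ^ 5
              ≤ 4 * cG * (‖x - y‖ * ‖v‖) * ‖x - y‖ ^ 5 := by gcongr
            _ = 4 * cG * ‖v‖ * ‖x - y‖ ^ 6 := by ring
        calc |(-4 : ℝ)| * cG * |inner ℝ (x - y) v| / ‖x - y‖ ^ 6 * |f y|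
            ≤ 4 * cG * ‖v‖ / ‖x - y‖ ^ 5 * |f y| := by gcongr
          _ = 4 * cG * ‖v‖ * (|f y| / ‖x - y‖ ^ 5) := by ring
    have h3 := ENNReal.toReal_mono (ENNReal.mul_ne_top ENNReal.ofReal_ne_top h5) h2
    refine h3.trans ?_
    rw [ENNReal.toReal_mul, ENNReal.toReal_ofReal (by positivity)]
    apply le_of_eq
    ring

end Pool.Helper4.BT
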