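import Pool.Agent.Helper12.BT.LAP
import Pool.Agent.Helper83.BT.LMAX

/-! Block PROJ: the projection of a bubble is close to the bubble (maximum principle). -/

namespace Pool.Helper4.BT
open MeasureTheory Metric Set Laplacian InnerProductSpace Topology

/-- Weak maximum principle for subharmonic functions on a bounded open set, with the boundary
values given on the complement. -/
theorem PROJ_max (Ω : Set E) (hΩ : IsOpen Ω) (hb : Bornology.IsBounded Ω) (h : E → ℝ)
    (hc : Continuous h) (h2 : ContDiffOn ℝ 2 h Ω) (hl : ∀ x ∈ Ω, 0 ≤ (Δ h) x) (M : ℝ)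
    (hM : ∀ x, x ∉ Ω → h x ≤ M) : ∀ x ∈ Ω, h x ≤ M := by
  intro x0 hx0
  by_contra hcon
  push Not at hcon
  obtain ⟨R, hR⟩ := hb.closure.subset_closedBall (0 : E)
  have hR0 : ∀ x ∈ closure Ω, ‖x‖ ^ 2 ≤ R ^ 2 := by
    intro x hx
    have := hR hx
    rw [mem_closedBall_zero_iff] at this
    exact pow_le_pow_left₀ (norm_nonneg _) this 2
  -- the perturbation
  set ε : ℝ := (h x0 - M) / (2 * (1 + R ^ 2)) with hε
  have hεpos : 0 < ε := by
    have : 0 < h x0 - M := by linarith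
    positivity
  have hεR : ε * (R ^ 2) < h x0 - M := by
    rw [hε, div_mul_eq_mul_div, div_lt_iff₀ (by positivity)]
    nlinarith [sq_nonneg R]
  set g : E → ℝ := fun x => h x + ε * A 0 0 x with hg
  have hA : ∀ x : E, A 0 0 x = ‖x‖ ^ 2 := by
    intro x
    simp [A]
  have hgc : Continuous g := by
    have : Continuous (A 0 0) := (contDiff_A 0 0 (n := 0)).continuous
    fun_prop
  have hcomp : IsCompact (closure Ω) := hb.isCompact_closure
  obtain ⟨x1, hx1, hmax⟩ := hcomp.exists_isMaxOn ⟨x0, subset_closure hx0⟩ hgc.continuousOn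
  have h3 : g x0 ≤ g x1 := hmax (subset_closure hx0)
  by_cases hx1' : x1 ∈ Ω
  · have hloc : IsLocalMax g x1 := by
      filter_upwards [hΩ.mem_nhds hx1'] with y hy
      exact hmax (subset_closure hy)
    have hcd : ContDiffAt ℝ 2 h x1 := h2.contDiffAt (hΩ.mem_nhds hx1')
    have hcd2 : ContDiffAt ℝ 2 (fun x => ε * A 0 0 x) x1 :=
      (contDiff_const.mul (contDiff_A 0 0)).contDiffAt
    have hle := lap_nonpos_of_isLocalMax hloc (hcd.add hcd2)
    have hadd : (Δ g) x1 = (Δ h) x1 + (Δ (fun x => ε * A 0 0 x)) x1 :=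
      hcd.laplacian_add hcd2
    have hA2 : (Δ (fun x => ε * A 0 0 x)) x1 = 12 * ε := by
      have := lap_comp_A (fun t => ε * t) 0 0 x1 (by fun_prop)
      rw [this]
      have hd : deriv (fun t : ℝ => ε * t) = fun _ => ε := by
        funext t
        simp
      rw [hd]
      simp
      ring
    have := hl x1 hx1'
    linarith
  · have h4 : g x1 ≤ M + ε * R ^ 2 := by
      simp only [hg, hA]
      have := hM x1 hx1'
      have := hR0 x1 hx1
      gcongr
    have h5 : h x0 ≤ g x0 := by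
      simp only [hg, hA]
      have : 0 ≤ ε * ‖x0‖ ^ 2 := by positivity
      linarith
    linarith

theorem proj_close (Ω : Set E) (hΩ : IsOpen Ω) (hb : Bornology.IsBounded Ω) (μ : ℝ) (hμ : 0 < μ)
    (ξ : E) (r : ℝ) (hr : 0 < r) (hball : ball ξ r ⊆ Ω) (W : E → ℝ) (hW : Continuous W)
    (h0 : ∀ x, x ∉ Ω → W x = 0) (h2 : ContDiffOn ℝ 2 W Ω)
    (heq : ∀ x ∈ Ω, (Δ W) x = (Δ (U μ ξ)) x) :
    ∀ x ∈ Ω, |U μ ξ x - W x| ≤ 24 * μ ^ 2 / r ^ 4 := by
  have hU : ContDiff ℝ 2 (U μ ξ) := contDiff_U hμ ξ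
  have hbd : ∀ x, x ∉ Ω → 0 ≤ U μ ξ x ∧ U μ ξ x ≤ 24 * μ ^ 2 / r ^ 4 := by
    intro x hx
    have h3 : r ≤ ‖x - ξ‖ := by
      by_contra hlt
      push Not at hlt
      exact hx (hball (by rwa [mem_ball, dist_eq_norm]))
    have h4 : r ^ 4 ≤ A μ ξ x ^ 2 := by
      have : r ^ 2 ≤ A μ ξ x := by
        unfold A
        have := pow_le_pow_left₀ hr.le h3 2
        nlinarith [sq_nonneg μ]
      calc r ^ 4 = (r ^ 2) ^ 2 := by ring
        _ ≤ _ := pow_le_pow_left₀ (by positivity) this 2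
    unfold U
    have hA := A_pos hμ ξ x
    refine ⟨by positivity, ?_⟩
    gcongr
  intro x hx
  have hlapsub : ∀ y ∈ Ω, (Δ (fun y => U μ ξ y - W y)) y = 0 := by
    intro y hy
    have := (hU.contDiffAt (x := y)).laplacian_sub (h2.contDiffAt (hΩ.mem_nhds hy))
    rw [show (fun y => U μ ξ y - W y) = U μ ξ - W from rfl, this, heq y hy, sub_self]
  have hlapsub' : ∀ y ∈ Ω, (Δ (fun y => W y - U μ ξ y)) y = 0 := by
    intro y hy
    have := (h2.contDiffAt (hΩ.mem_nhds hy)).laplacian_sub (hU.contDiffAt (x := y))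
    rw [show (fun y => W y - U μ ξ y) = W - U μ ξ from rfl, this, heq y hy, sub_self]
  rw [abs_le]
  constructor
  · have h3 := PROJ_max Ω hΩ hb (fun y => W y - U μ ξ y) (hW.sub hU.continuous)
      (h2.sub hU.contDiffOn) (fun y hy => (hlapsub' y hy).ge) (24 * μ ^ 2 / r ^ 4) (by
        intro y hy
        have := hbd y hy
        rw [h0 y hy]
        linarith [this.1, this.2]) x hx
    linarith
  · exact PROJ_max Ω hΩ hb (fun y => U μ ξ y - W y) (hU.continuous.sub hW)
      (hU.contDiffOn.sub h2) (fun y hy => (hlapsub y hy).ge) (24 * μ ^ 2 / r ^ 4) (by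
        intro y hy
        have := hbd y hy
        rw [h0 y hy]
        linarith [this.2]) x hx

end Pool.Helper4.BT
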